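import Pool.Agent.Helper64.NC.Rd.InT
import Pool.Agent.Helper64.NC.Dt.All

/-! Plane cubic maps with exactly three Hamilton circuits and at most one face of length at least 7
are uniquely 3-edge-colourable. -/

namespace Pool.H64.NC

universe u

theorem unique_colouring {D : Type u} [Fintype D] [DecidableEq D] (M : CubicMap D) (hM : M.Genus0)
    (hT : M.Three) (h1 : ∀ x y, 7 ≤ M.flen x → 7 ≤ M.flen y → M.Fc x y) : M.UniqCol :=
  CubicMap.one_big_uniq (fun q hq => Dat.good_all q hq) hM hT h1

end Pool.H64.NC
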